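import Pool.Agent.H500.ZO.Stm

set_option autoImplicit false
set_option linter.unusedSectionVars false

/-!
# Project ZO: Artin maps
-/

namespace Pool.Agent.H500.ZO

open NumberField IsDedekindDomain
open Pool.Agent.W401.Cheb (GK IsFrob IsInert dens)

theorem art_of (ha : S_ARTa) (hb : S_ARTb) : S_ART := by
  intro L _ _ M hM
  classical
  obtain ⟨m, χ, h1, h2⟩ := hb L M hM
  choose θ B hθ hB h3 using fun i => ha L M hM (χ i) (h1 i)
  have hMfin : {w : HeightOneSpectrum (𝓞 L) | (M : 𝓞 L) ∈ w.asIdeal}.Finite := by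
    have h4 : (M : 𝓞 L) ≠ 0 := by exact_mod_cast hM.ne'
    have h5 := Ideal.finite_factors (I := Ideal.span {(M : 𝓞 L)}) (by
      rw [Ne, Ideal.zero_eq_bot, Ideal.span_singleton_eq_bot]
      exact h4)
    refine h5.subset fun w hw => ?_
    show w.asIdeal ∣ Ideal.span {(M : 𝓞 L)}
    rw [Ideal.dvd_iff_le, Ideal.span_singleton_le_iff_mem]
    exact hw
  refine ⟨⨅ i, (θ i).ker, (⋃ i, B i) ∪ {w | (M : 𝓞 L) ∈ w.asIdeal}, ?_, ?_,
    (Set.finite_iUnion hB).union hMfin, ?_⟩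
  · have h4 : ((⨅ i, (θ i).ker : Subgroup (GK L)) : Set (GK L)) =
        ⋂ i, ((θ i).ker : Set (GK L)) := by
      rw [Subgroup.coe_iInf]
    rw [h4]
    exact isOpen_iInter_of_finite hθ
  · refine le_iInf fun i => ?_
    exact Abelianization.commutator_subset_ker (θ i)
  · intro w w' hw hw' s s' hs hs' hss
    have e1 : ∀ i, w ∉ B i := fun i h => hw (Or.inl (Set.mem_iUnion.2 ⟨i, h⟩))
    have e2 : ∀ i, w' ∉ B i := fun i h => hw' (Or.inl (Set.mem_iUnion.2 ⟨i, h⟩))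
    refine h2 w w' (fun h => hw (Or.inr h)) (fun h => hw' (Or.inr h)) fun i => ?_
    rw [← h3 i w (e1 i) s hs, ← h3 i w' (e2 i) s' hs']
    have h4 : s⁻¹ * s' ∈ (θ i).ker := (Subgroup.mem_iInf.1 hss) i
    rw [MonoidHom.mem_ker, map_mul, map_inv, inv_mul_eq_one] at h4
    rw [h4]

end Pool.Agent.H500.ZO
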