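import Pool.Agent.H500.ZO.Stm
import Pool.Agent.H500.TH.Sol1
import Pool.Graph.R_pool_sql_team_seeded_3dad9d7b.NH56.PA.Def

set_option autoImplicit false
set_option linter.unusedSectionVars false

/-!
# Project ZO: integral systems with solvable residual images are potentially abelian
-/

namespace Pool.Agent.H500.ZO

open NumberField IsDedekindDomain Filter Topology Polynomial
open Pool.Agent.W401.Cheb (GK IsFrob IsInert dens)
open Pool.Agent.H500.HC (InRay QBar jz)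
open Pool.Agent.H500.MW (PosUD)
open Pool.Agent.H500.TH (SolRes)
open Pool.Agent.R390.SF (SubFld IntegralSystem IsStable)
open Pool.Agent.NH56.PA (PotAbelian)

/-- PART 6 (the absolute Galois group of a subfield of `ℚ̄`).  Here `Pool.Agent.Y800.ZBar` etc. are as in
`Pool/Graph/R_seed8/R390/SF/Defs.lean`.
Proof.  `AlgebraicClosure F` and `AlgebraicClosure ℚ` are algebraic closures of `F`: an isomorphism `e` over `F`;
`b σ = e σ e⁻¹`.  A maximal ideal of the integers of `AlgebraicClosure F` corresponds to one of `ZBar`.  `IsFrob` is the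
arithmetic Frobenius, `IsGeomFrob q P τ` the geometric one.  Compare the proof of `Fld` in
`Pool/Agent/H967/SV/Fld.lean`. -/
def S_BRG : Prop := ∀ (F : SubFld ℚ) [NumberField F], ∃ b : GK F ≃* F.fixingSubgroup,
  (∀ U : Subgroup F.fixingSubgroup, IsOpen (U : Set F.fixingSubgroup) →
    IsOpen ((U.comap b.toMonoidHom : Subgroup (GK F)) : Set (GK F))) ∧
  (∀ U : Subgroup (GK F), IsOpen (U : Set (GK F)) →
    IsOpen ((U.map b.toMonoidHom : Subgroup F.fixingSubgroup) : Set F.fixingSubgroup)) ∧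
  Continuous b ∧ Continuous b.symm ∧
  (∀ (v : HeightOneSpectrum (𝓞 F)) (σ : GK F), IsFrob v σ → ∃ P : Ideal Pool.Agent.Y800.ZBar,
    P.IsMaximal ∧ P.under (𝓞 F) = v.asIdeal ∧
    Pool.Agent.Y800.IsGeomFrob (Nat.card (𝓞 F ⧸ v.asIdeal)) P ((b σ)⁻¹ : F.fixingSubgroup)) ∧
  ∀ (v : HeightOneSpectrum (𝓞 F)) (τ : GK F), IsInert v τ → ∃ P : Ideal Pool.Agent.Y800.ZBar,
    P.IsMaximal ∧ P.under (𝓞 F) = v.asIdeal ∧ Pool.Agent.Y800.InInertia P (b τ : F.fixingSubgroup)

/-- the main theorem of the projects SV, TH (proved: `Pool.Agent.H500.TH.sol`, assembled by helper500) -/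
def SOL : Prop := ∀ (K E : Type) [Field K] [NumberField K] [Field E] [NumberField E]
  (j : E →+* QBar) (N n : ℕ), 2 ≤ N → ∀ P : HeightOneSpectrum (𝓞 K) → (𝓞 E)[X],
  PosUD (SolRes N n P) →
  ∃ (U : Subgroup (GK K)) (L : Type) (_ : Field L) (_ : NumberField L) (_ : Algebra K L)
    (ι : GK L →* GK K) (e : ℕ) (t : Fin n → (L →+* QBar) → ℕ)
    (ψ : Fin n → (Ideal (𝓞 L) →*₀ Pool.Agent.H500.HC.ZBar)), PotHecke j N n P U L ι e t ψ

/-- the proportion of the primes `ℓ ≤ x` such that the image of `T_ℓ / ℓ` is solvable -/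
noncomputable def solvDens {F : SubFld ℚ} {n : ℕ} (T : IntegralSystem F n) (x : ℕ) : ℝ :=
  ({ℓ : ℕ | ℓ ≤ x ∧ ∃ _ : Fact ℓ.Prime, Group.IsSolvable (T.res ℓ).range}.ncard : ℝ) /
    (Nat.primeCounting x : ℝ)

/-- `V_ℓ` is semisimple for `ℓ` in `Λ` -/
def SemiOn {F : SubFld ℚ} {n : ℕ} (Λ : Set ℕ) (T : IntegralSystem F n) : Prop :=
  ∀ (ℓ : ℕ) [Fact ℓ.Prime], ℓ ∈ Λ → ∀ U : Submodule ℚ_[ℓ] (Fin n → ℚ_[ℓ]),
    IsStable (T.rat ℓ) U →
      ∃ U' : Submodule ℚ_[ℓ] (Fin n → ℚ_[ℓ]), IsStable (T.rat ℓ) U' ∧ IsCompl U U'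

/-- PART 7.  To be proved: `S_BRG → SOL → S_ABL → S_SYS`.
Proof.  `K = F`, `E = ℚ`, `N = 2 ∏ p` (`p ∈ S` prime), `P v = T.poly v.asIdeal` (in `𝓞 ℚ`).  Frobenius elements are
geometric in `IntegralSystem` and arithmetic in `SolRes`, `S_ABL`: use the dual representations
`g ↦ (ρ(b g)⁻¹)ᵀ` (characteristic polynomial of an arithmetic Frobenius element = that of the geometric one;
the image is solvable iff `ρ` is; semisimple: orthogonal complements; commutation).  The places of `ℚ` are the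
primes `ℓ`: `dens` in `Pool.Agent.W401.Cheb` counts places of norm `≤ x` over `π(x)`, so the hypothesis gives
`PosUD (SolRes N n P)` (`Pool.Agent.H500.MW.posUD_of_not`), with `k = ZMod ℓ` (`T.res ℓ`; open kernel by `continuous`
and since `ZMod ℓ` is discrete: `ker (ℤ_ℓ → ZMod ℓ)` is open). `GoodAt` gives unramifiedness and the characteristic
polynomials.  `PotHecke` from `SOL`; `U.map b` is the open subgroup; `S_ABL` with `C = ℚ_[ℓ]`, for `ℓ ∈ Λ` (including the
`ℓ ∈ S`). -/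
def S_SYS : Prop := ∀ (F : SubFld ℚ) [FiniteDimensional ℚ F] (n w : ℕ) (S : Finset ℕ) (Λ : Set ℕ)
  (T : IntegralSystem F n), 0 < n → T.GoodSystem S w → SemiOn Λ T →
  ¬ Tendsto (solvDens T) atTop (𝓝 0) → PotAbelian Λ T

end Pool.Agent.H500.ZO
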