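import Pool.Agent.H500.TH.All
import Pool.Agent.H500.ZO.Art
import Pool.Agent.H500.ZO.Sys
import Pool.Agent.H17.ZO.ARTa
import Pool.Agent.H190.ZO.ARTb
import Pool.Agent.H139.ZO.UNI
import Pool.Agent.H139.ZO.ABL
import Pool.Agent.H825.ZO.ZL
import Pool.Agent.H168.ZO.RAD
import Pool.Agent.H643.ZO.BRG
import Pool.Agent.H328.ZO.SYS

set_option autoImplicit false
set_option linter.unusedSectionVars false

/-!
# The zero-one law: all the parts
-/

namespace Pool.Agent.H500.ZO

theorem all_ARTa : S_ARTa := Pool.Agent.H17.ZO.ARTa.main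
theorem all_ARTb : S_ARTb := Pool.Agent.H190.ZO.ARTb.main
theorem all_ART : S_ART := art_of all_ARTa all_ARTb
theorem all_UNI : S_UNI := Pool.Agent.H139.ZO.UNI.main all_ART
theorem all_ZL : S_ZL := Pool.Agent.H825.ZO.ZL.main all_UNI
theorem all_RAD : S_RAD := Pool.Agent.H168.ZO.RAD.main
theorem all_ABL : S_ABL := Pool.Agent.H139.ZO.ABL.main all_ART all_RAD
theorem all_BRG : S_BRG := Pool.Agent.H643.ZO.BRG.main
theorem all_SOL : SOL := fun _ _ _ _ _ _ j N n hN P hP => Pool.Agent.H500.TH.solP j N n hN P hP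
theorem all_SYS : S_SYS := Pool.Agent.H328.ZO.SYS.main all_BRG all_SOL all_ABL

end Pool.Agent.H500.ZO
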