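import Pool.Agent.H500.TH.Stm
import Pool.Agent.H500.AS.All
import Pool.Graph.R_pool_sql_team_seeded_3997aac3.Q92.AR.Def

set_option autoImplicit false
set_option linter.unusedSectionVars false

/-!
# Project ZO (helper500): a zero-one law for solvable residual images

`K`, `E` number fields, `P v ∈ 𝓞_E[X]`.  By `Pool.Agent.H500.TH.sol`: if the set of the places `lam` of `E` with a residual
representation with solvable image attached to `P` does not have density zero, then `P` is over a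
solvable extension `L` of `K` given by Hecke characters `ψ_1, …, ψ_n`: `PotHecke`.

The converse (this project): then all residual representations attached to `P` have solvable
image, and all semisimple `ℓ`-adic representations attached to `P` are abelian on the subgroup of `L`.
-/

namespace Pool.Agent.H500.ZO

open NumberField IsDedekindDomain Filter Topology Polynomial
open Pool.Agent.W401.Cheb (GK IsFrob IsInert dens)
open Pool.Agent.H500.HC (InRay QBar ZBar jz)
open Pool.Agent.H500.R2 (UnrOut)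
open Pool.Agent.H500.SV (Above Fld)
open Pool.Agent.H500.TH (typB)

/-! ## Part 1: Artin maps (existence theorem of class field theory) -/

/-- PART 1a (Artin characters of ray class characters).
Library: `Pool.Agent.Q20.EX.all_EXI` (module `Pool.Graph.R_pool_sql_team_seeded_3997aac3.Q20.EX.All`,
`team-store fetch /workdir/pool Pool/Graph/R_pool_sql_team_seeded_3997aac3/Q20/EX/All.lean`): `χ` is `IsArt`, i.e. on the
divisors prime to some `N'` it is the Artin character `art ψ` of a character `ψ` of a finite Galois group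
`Gal(M'/L)`, `art ψ v = ψ(frob M' v)`.  See `…/Q20/EX/Stm.lean`, `…/Q92/AR/Def.lean` for the definitions.
Proof.  `θ : GK L → Gal(M'/L) → ℂˣ` (an embedding of `M'` in `AlgebraicClosure L`), `B` = the places containing `N'`.  A
Frobenius element `s` of `GK L` at `w ∉ B` restricts to a Frobenius element of `Gal(M'/L)` for a place above `w`, which
is conjugate to `frob M' w` (`M'` is unramified at `w`; compare `Pool/Agent/H643/AS`, `Pool/Agent/H500/AS/All.lean`,
where Galois characters are translated to ray class characters). -/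
def S_ARTa : Prop := ∀ (L : Type) [Field L] [NumberField L] (M : ℕ), 0 < M →
  ∀ χ : Pool.Agent.Q92.AR.Dv L →+ Additive ℂˣ,
  (∀ x ∈ Pool.Agent.Q92.AR.Ray L M, χ (Pool.Agent.Q92.AR.prin x) = 0) →
  ∃ (θ : GK L →* ℂˣ) (B : Set (HeightOneSpectrum (𝓞 L))), IsOpen (θ.ker : Set (GK L)) ∧ B.Finite ∧
    ∀ w : HeightOneSpectrum (𝓞 L), w ∉ B → ∀ s, IsFrob w s →
      Additive.ofMul (θ s) = χ (Finsupp.single w 1)

/-- PART 1b (finitely many ray class characters separate the ray classes).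
Proof.  `G` = the group of the divisors prime to `M` modulo the `prin x`, `x ∈ Ray L M`, is finite (class number
finite, `x^(2m) ∈ Ray` for `x` prime to `M`, `m` the order of `(𝓞/M)ˣ`, finitely many signs; compare
`Pool.Agent.H199.HC.Cls` and the library jobs `S_CH`, `S_XF` in
`Pool/Graph/R_pool_sql_team_seeded_3997aac3/Q5/SG/Stm2.lean`).  The characters of `G`, extended to `Dv L` by `0` on the
places containing `M`, are finitely many (duality for finite abelian groups).  If they agree on `w` and `w'` then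
`w - w' = prin x0`, `x0 ∈ Ray L M`.  Let `q > 0` be a rational integer in `w'`, prime to `M` (the norm of `w'`):
`y = q^m ≡ 1 mod M` is in `w'`, `x = x0 y` is integral and `(x) w' = w (y)`: rename `x`, `y`. -/
def S_ARTb : Prop := ∀ (L : Type) [Field L] [NumberField L] (M : ℕ), 0 < M →
  ∃ (m : ℕ) (χ : Fin m → (Pool.Agent.Q92.AR.Dv L →+ Additive ℂˣ)),
    (∀ i, ∀ x ∈ Pool.Agent.Q92.AR.Ray L M, χ i (Pool.Agent.Q92.AR.prin x) = 0) ∧
    ∀ w w' : HeightOneSpectrum (𝓞 L), (M : 𝓞 L) ∉ w.asIdeal → (M : 𝓞 L) ∉ w'.asIdeal →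
      (∀ i, χ i (Finsupp.single w 1) = χ i (Finsupp.single w' 1)) →
      ∃ x y : 𝓞 L, InRay M x ∧ InRay M y ∧
        w.asIdeal * Ideal.span {x} = w'.asIdeal * Ideal.span {y}

/-- (assembled by helper500 from 1a, 1b) -/
def S_ART : Prop := ∀ (L : Type) [Field L] [NumberField L] (M : ℕ), 0 < M →
  ∃ (V : Subgroup (GK L)) (B : Set (HeightOneSpectrum (𝓞 L))), IsOpen (V : Set (GK L)) ∧
    commutator (GK L) ≤ V ∧ B.Finite ∧
    ∀ w w' : HeightOneSpectrum (𝓞 L), w ∉ B → w' ∉ B → ∀ s s' : GK L, IsFrob w s → IsFrob w' s' →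
      s⁻¹ * s' ∈ V → ∃ x y : 𝓞 L, InRay M x ∧ InRay M y ∧
        w.asIdeal * Ideal.span {x} = w'.asIdeal * Ideal.span {y}

section
variable {K E : Type} [Field K] [NumberField K] [Field E] [NumberField E]

/-- `P` is over `L` given by the Hecke characters `ψ i`; `U` is the subgroup of `L` -/
structure PotHecke (j : E →+* QBar) (N n : ℕ) (P : HeightOneSpectrum (𝓞 K) → (𝓞 E)[X])
    (U : Subgroup (GK K)) (L : Type) [Field L] [NumberField L] [Algebra K L] (ι : GK L →* GK K)
    (e : ℕ) (t : Fin n → (L →+* QBar) → ℕ) (ψ : Fin n → (Ideal (𝓞 L) →*₀ ZBar)) : Prop where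
  normal : U.Normal
  isOpen : IsOpen (U : Set (GK K))
  solv : ∃ r, derivedSeries (GK K) r ≤ U
  unr : UnrOut N U
  fld : Fld U L ι
  monic : ∀ v : HeightOneSpectrum (𝓞 K), (N : 𝓞 K) ∉ v.asIdeal → (P v).Monic ∧ (P v).natDegree = n
  cop : ∀ i (𝔞 : Ideal (𝓞 L)), 𝔞 ≠ ⊥ → (ψ i 𝔞 ≠ 0 ↔ IsCoprime 𝔞 (Ideal.span {(N : 𝓞 L)}))
  typ : ∀ i (x : 𝓞 L), InRay (N ^ e) x → ψ i (Ideal.span {x}) = typB (t i) x
  eq : ∀ (v : HeightOneSpectrum (𝓞 K)) (w : HeightOneSpectrum (𝓞 L)) (f : ℕ) (α : Fin n → ZBar),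
    (N : 𝓞 K) ∉ v.asIdeal → Above w v →
    Ideal.absNorm w.asIdeal = Ideal.absNorm v.asIdeal ^ f →
    (P v).map (jz j) = ∏ i, (X - Polynomial.C (α i)) →
    ∏ i, (X - Polynomial.C (α i ^ f)) = ∏ i, (X - Polynomial.C (ψ i w.asIdeal))

end

/-- PART 2 (residual representations are unipotent on the commutator subgroup).  To be proved: `S_ART → S_UNI`.
Proof.  `l` = the characteristic of `k`, a power of which is the norm of `lam`.  Let `V`, `B` be from `S_ART` for `L` and
`M = N^e * Ideal.absNorm lam.asIdeal`.  `W = ρ.ker.comap ι` is open (`Fld.comap_open`).  By Chebotarev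
(`Pool.Agent.W528.Ord.chebK`, as used in `Pool/Agent/H860/SV/Res.lean` or `Pool/Agent/H500/R2`) there are places `w`,
`w'` of `L` outside `B`, the divisors of `N` and of the norm of `lam`, with Frobenius elements `s ∈ c (W ⊓ V)` (up to
conjugation: replace `c` by a conjugate, which is again in the commutator subgroup) and `s' ∈ W ⊓ V`.  Then
`s⁻¹ s' ∈ V`, and `w (x) = w' (y)`.  Apply `ψ i` and a ring homomorphism `r : ZBar →+* kb`, `kb` an algebraic closure of
`k`, with `r ∘ jz j = φ` (`Pool.Agent.Y800.extend`, as in `Pool/Agent/H500/TH/Sol1.lean`): `r (typB (t i) x) = 1`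
as `x ≡ 1 mod l`.  So `r (ψ i w) = r (ψ i w')`.  By `Fld.frob` (`ι s = σ^f τ`, `τ` inertia, `ρ τ = 1` by `UnrOut`) the
characteristic polynomial of `ρ (ι s)` is `∏ (X - r (α i)^f) = ∏ (X - r (ψ i w))` (`α` the roots of `P v`;
compare `Pool/Agent/H894/TH/TFin.lean`), and the same for `s'`, `w'`; `ρ (ι s') = 1`, `ρ (ι s) = ρ (ι c)`. -/
def S_UNI : Prop := ∀ (K E : Type) [Field K] [NumberField K] [Field E] [NumberField E]
  (j : E →+* QBar) (N n : ℕ) (P : HeightOneSpectrum (𝓞 K) → (𝓞 E)[X])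
  (U : Subgroup (GK K)) (L : Type) [Field L] [NumberField L] [Algebra K L] (ι : GK L →* GK K)
  (e : ℕ) (t : Fin n → (L →+* QBar) → ℕ) (ψ : Fin n → (Ideal (𝓞 L) →*₀ ZBar)), 2 ≤ N →
  PotHecke j N n P U L ι e t ψ →
  ∀ (lam : HeightOneSpectrum (𝓞 E)) (k : Type) [Field k] (φ : 𝓞 E →+* k)
    (ρ : GK K →* GL (Fin n) k), RingHom.ker φ = lam.asIdeal → IsOpen (ρ.ker : Set (GK K)) →
  (∀ v : HeightOneSpectrum (𝓞 K), (N : 𝓞 K) ∉ v.asIdeal →
    ((Ideal.absNorm lam.asIdeal : ℕ) : 𝓞 K) ∉ v.asIdeal → ∀ σ, IsFrob v σ →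
    (ρ σ : Matrix (Fin n) (Fin n) k).charpoly = (P v).map φ) →
  UnrOut (N * Ideal.absNorm lam.asIdeal) ρ.ker →
  ∀ c ∈ commutator (GK L), (ρ (ι c) : Matrix (Fin n) (Fin n) k).charpoly = (X - 1) ^ n

/-- PART 3 (the zero-one law).  To be proved: `S_UNI → S_ZL`.
Proof.  `H = ρ(ι(commutator))` is a finite subgroup of `GL_n(k)` (`ρ` has open kernel in a compact group), and for
`h ∈ H` the matrix `h - 1` is nilpotent (Cayley-Hamilton), so `h^(l^m) = 1` for `l^m ≥ n` (`l` = char `k`, prime since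
`RingHom.ker φ = lam.asIdeal`): `H` is an `l`-group, so it is nilpotent and solvable
(`IsPGroup.isNilpotent`).  `ρ(U) = ρ(ι(⊤))`, `ρ(U) / H` is abelian, `ρ(G) / ρ(U)` is solvable (`PotHecke.solv`). -/
def S_ZL : Prop := ∀ (K E : Type) [Field K] [NumberField K] [Field E] [NumberField E]
  (j : E →+* QBar) (N n : ℕ) (P : HeightOneSpectrum (𝓞 K) → (𝓞 E)[X])
  (U : Subgroup (GK K)) (L : Type) [Field L] [NumberField L] [Algebra K L] (ι : GK L →* GK K)
  (e : ℕ) (t : Fin n → (L →+* QBar) → ℕ) (ψ : Fin n → (Ideal (𝓞 L) →*₀ ZBar)), 2 ≤ N →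
  PotHecke j N n P U L ι e t ψ →
  ∀ (lam : HeightOneSpectrum (𝓞 E)) (k : Type) [Field k] (φ : 𝓞 E →+* k)
    (ρ : GK K →* GL (Fin n) k), RingHom.ker φ = lam.asIdeal → IsOpen (ρ.ker : Set (GK K)) →
  (∀ v : HeightOneSpectrum (𝓞 K), (N : 𝓞 K) ∉ v.asIdeal →
    ((Ideal.absNorm lam.asIdeal : ℕ) : 𝓞 K) ∉ v.asIdeal → ∀ σ, IsFrob v σ →
    (ρ σ : Matrix (Fin n) (Fin n) k).charpoly = (P v).map φ) →
  UnrOut (N * Ideal.absNorm lam.asIdeal) ρ.ker → Group.IsSolvable ρ.range

/-- every stable subspace has a stable complement -/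
def SemiS {G : Type} [Group G] {C : Type} [Field C] {n : ℕ} (ρ : G →* GL (Fin n) C) : Prop :=
  ∀ W : Submodule C (Fin n → C),
    (∀ g, ∀ u ∈ W, (ρ g : Matrix (Fin n) (Fin n) C).mulVec u ∈ W) →
    ∃ W' : Submodule C (Fin n → C),
      (∀ g, ∀ u ∈ W', (ρ g : Matrix (Fin n) (Fin n) C).mulVec u ∈ W') ∧ IsCompl W W'

/-- PART 4 (algebra).  Proof.  (1) The restriction of `ρ` to the normal subgroup `U` of finite index is semisimple
(Clifford: a simple `U`-submodule `W` of a simple `G`-module `V`; the translates `g W` are simple and span `V`).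
(2) Let `A` be the span of the `ρ u`, `u ∈ U`, in `Matrix (Fin n) (Fin n) C`, and `x = ρ c - 1 ∈ A`.  By linearity
`tr (a x) = 0` for all `a ∈ A`, so `tr ((a x)^m) = 0` for all `m ≥ 1`, and `a x` is nilpotent (characteristic
zero).  So `A x` is a nil left ideal, hence it annihilates every simple `A`-module: otherwise
`A x w = W` for some `w ∈ W`, `a x w = w`, contradiction.  As `C^n` is a sum of simple `A`-modules, `x = 0`. -/
def S_RAD : Prop := ∀ (G C : Type) [Group G] [Field C] [CharZero C] (n : ℕ)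
  (ρ : G →* GL (Fin n) C) (U : Subgroup G), U.Normal → SemiS ρ → ∀ c ∈ U,
  (∀ g ∈ U, (ρ (g * c) : Matrix (Fin n) (Fin n) C).trace =
    (ρ g : Matrix (Fin n) (Fin n) C).trace) → ρ c = 1

/-- PART 5 (semisimple `ℓ`-adic representations are abelian on `U`).  To be proved: `S_ART → S_RAD → S_ABL`.
Proof.  By `S_RAD` it is enough to show `tr ρ(g c) = tr ρ(g)` for `g ∈ U = ι.range`, `c` a commutator of two elements of
`U`.  Let `g = ι g'`, `c = ι c'`, `c' ∈ commutator (GK L)`, and `m ≥ 1`.  `V`, `B` from `S_ART` for `L` and the modulus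
`N^e ℓ^m`.  As `ρ ∘ ι` is continuous (`Fld.comap_open` and the neighbourhoods of `ρ (ι g')`: enough that for an open
normal subgroup `W` of `GK L` the norms of `tr ρ(ι (g' u)) - tr ρ(ι g')`, `tr ρ(ι (g' c' u)) - tr ρ (ι (g' c'))`,
`u ∈ W`, are at most `ℓ^(-m)`) and by Chebotarev there are places `w`, `w'` of `L`, outside `B` and not dividing `N ℓ`,
with Frobenius elements `s` conjugate to an element of `g' (W ⊓ V)` and `s'` conjugate to an element of `g' c' (W ⊓ V)`
(`V` contains the commutator subgroup, traces are invariant under conjugation).  So `w (x) = w' (y)` with `x`, `y`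
in the ray, and `ψ i w * typB (t i) x = ψ i w' * typB (t i) y`, hence `ψ i w - ψ i w' ∈ ℓ^m ZBar`.
As in Part 2 the trace of `ρ(ι s)` is `κ` of the element `T = ∑ (α i)^f` of `𝓞 E` (a symmetric function of the roots
of `P v`; `jz j T = ∑ ψ i w`), and the same for `s'`: `T - T'` is in `ℓ^m ZBar`, so in `ℓ^m 𝓞 E` (integrally
closed), and `‖κ(T - T')‖ ≤ ℓ^(-m)` (elements of `𝓞 E` are integral, so the norm of their images is at most
`1` in the nonarchimedean field `C`). -/
def S_ABL : Prop := ∀ (K E : Type) [Field K] [NumberField K] [Field E] [NumberField E]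
  (j : E →+* QBar) (N n : ℕ) (P : HeightOneSpectrum (𝓞 K) → (𝓞 E)[X])
  (U : Subgroup (GK K)) (L : Type) [Field L] [NumberField L] [Algebra K L] (ι : GK L →* GK K)
  (e : ℕ) (t : Fin n → (L →+* QBar) → ℕ) (ψ : Fin n → (Ideal (𝓞 L) →*₀ ZBar)), 2 ≤ N →
  PotHecke j N n P U L ι e t ψ →
  ∀ (ℓ : ℕ) [Fact ℓ.Prime] (C : Type) [NormedField C] [NormedAlgebra ℚ_[ℓ] C]
    [IsUltrametricDist C] (κ : E →+* C) (ρ : GK K →* GL (Fin n) C),
  Continuous (fun g => (ρ g : Matrix (Fin n) (Fin n) C)) → SemiS ρ →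
  (∀ v : HeightOneSpectrum (𝓞 K), (N : 𝓞 K) ∉ v.asIdeal → (ℓ : 𝓞 K) ∉ v.asIdeal →
    (∀ τ, IsInert v τ → ρ τ = 1) ∧ ∀ σ, IsFrob v σ →
    (ρ σ : Matrix (Fin n) (Fin n) C).charpoly = (P v).map (κ.comp (algebraMap (𝓞 E) E))) →
  ∀ g ∈ U, ∀ h ∈ U, ρ g * ρ h = ρ h * ρ g

end Pool.Agent.H500.ZO
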