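import Pool.Agent.H500.ZO.All

set_option autoImplicit false
set_option linter.unusedSectionVars false

/-!
# The zero-one law for integral systems
-/

namespace Pool.Agent.H500.ZO

open NumberField IsDedekindDomain Filter Topology Polynomial
open Pool.Agent.W401.Cheb (GK IsFrob IsInert dens)
open Pool.Agent.H500.HC (InRay QBar jz)
open Pool.Agent.H500.MW (PosUD posUD_of_not)
open Pool.Agent.H500.R2 (UnrOut)
open Pool.Agent.H500.TH (SolRes sol_of_ker)
open Pool.Agent.R390.SF (SubFld IntegralSystem IsStable)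
open Pool.Agent.NH56.PA (PotAbelian)
open Pool.Agent.H328.ZO.SYS

/-- if the residual images are solvable for many primes they are solvable for all primes -/
theorem law (F : SubFld ℚ) [FiniteDimensional ℚ F] (n w : ℕ) (S : Finset ℕ)
    (T : IntegralSystem F n) (hT : T.GoodSystem S w)
    (hdens : ¬ Tendsto (solvDens T) atTop (𝓝 0)) (ℓ : ℕ) [Fact ℓ.Prime] :
    Group.IsSolvable (T.res ℓ).range := by
  have hNF : NumberField F := ⟨⟩
  obtain ⟨b, hU1, hU2, hb, hbs, hF, hI⟩ := all_BRG F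
  set N := 2 * ∏ p ∈ S.filter Nat.Prime, p with hNdef
  have hN : ∀ p ∈ S, p.Prime → p ∣ N := fun p hp hpp =>
    (Finset.dvd_prod_of_mem (fun p => p) (Finset.mem_filter.2 ⟨hp, hpp⟩)).mul_left 2
  have hN2 : 2 ≤ N := by
    have : 0 < ∏ p ∈ S.filter Nat.Prime, p :=
      Finset.prod_pos fun p hp => (Finset.mem_filter.1 hp).2.pos
    omega
  have hpos : PosUD (SolRes (K := F) (E := ℚ) N n
      (fun v => (T.poly v.asIdeal).map (Int.castRingHom (𝓞 ℚ)))) := by
    apply posUD_of_not
    intro h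
    apply hdens
    refine squeeze_zero (fun x => ?_) (fun x => dens_le (fun ℓ _ hs => ?_) x) h
    · unfold solvDens
      positivity
    · obtain ⟨lam, φ, h1, h2⟩ := place ℓ
      exact ⟨lam, h1, solRes hT b hU1 hF hI hN ℓ hs lam φ h1 h2⟩
  obtain ⟨U, L, _, _, _, ι, e, t, ψ, hP⟩ := all_SOL F ℚ (algebraMap ℚ QBar) N n hN2 _ hpos
  obtain ⟨lam, φ, hlam, hφ⟩ := place ℓ
  have hdual : ∀ g : GK F, dual (T.res ℓ (b g)) = 1 ↔ T.res ℓ (b g) = 1 := by
    intro g
    constructor
    · intro h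
      exact dual_inj (h.trans (map_one dual).symm)
    · intro h
      rw [h, map_one]
  have hop : IsOpen ((dual.comp ((T.res ℓ).comp b.toMonoidHom)).ker : Set (GK F)) := by
    have h1 : ((dual.comp ((T.res ℓ).comp b.toMonoidHom)).ker : Set (GK F)) =
        (((T.res ℓ).ker.comap b.toMonoidHom : Subgroup (GK F)) : Set (GK F)) := by
      ext g
      exact hdual g
    rw [h1]
    exact hU1 _ (ker_res_open hT ℓ)
  have hsol := all_ZL F ℚ (algebraMap ℚ QBar) N n _ U L ι e t ψ hN2 hP lam (ZMod ℓ) φ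
    (dual.comp ((T.res ℓ).comp b.toMonoidHom)) hφ hop (by
      intro v hv hℓv σ hσ
      rw [hlam] at hℓv
      have h3 := (data hT b hF hI hN v hv ℓ hℓv).2 σ hσ
      show (dual (T.res ℓ (b σ)) : Matrix (Fin n) (Fin n) (ZMod ℓ)).charpoly = _
      rw [charpoly_dual, ← map_inv]
      have h4 : (T.res ℓ (b σ)⁻¹ : Matrix (Fin n) (Fin n) (ZMod ℓ)) =
          (T.rho ℓ (b σ)⁻¹ : Matrix (Fin n) (Fin n) ℤ_[ℓ]).map PadicInt.toZMod := rfl
      rw [h4, Matrix.charpoly_map, h3, Polynomial.map_map, Polynomial.map_map]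
      exact congrArg (fun f => Polynomial.map f (T.poly v.asIdeal)) (Subsingleton.elim _ _)) (by
      intro v hv τ hτ
      rw [hlam, Nat.cast_mul] at hv
      have h1 : (N : 𝓞 F) ∉ v.asIdeal := fun h => hv (v.asIdeal.mul_mem_right _ h)
      have h2 : (ℓ : 𝓞 F) ∉ v.asIdeal := fun h => hv (v.asIdeal.mul_mem_left _ h)
      have h3 := (data hT b hF hI hN v h1 ℓ h2).1 τ hτ
      show dual (T.res ℓ (b τ)) = 1
      rw [hdual]
      unfold IntegralSystem.res
      rw [MonoidHom.comp_apply, h3, map_one])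
  -- back to `T.res`
  have h1 : Group.IsSolvable ((T.res ℓ).comp b.toMonoidHom).range := by
    refine sol_of_ker (dual.comp ((T.res ℓ).comp b.toMonoidHom)) _ ?_ hsol
    intro g hg
    exact (hdual g).1 hg
  have h2 : ((T.res ℓ).comp b.toMonoidHom).range = (T.res ℓ).range := by
    rw [MonoidHom.range_comp, MonoidHom.range_eq_top.2 b.surjective, ← MonoidHom.range_eq_map]
  rwa [h2] at h1

end Pool.Agent.H500.ZO
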